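import Mathlib
import Pool.Agent.Lib_helper72.GC.DefsM

/-!
# GCE: Gompf's conjecture fails for every large trace.  Definitions
-/

set_option autoImplicit false

namespace Pool.Agent.Lib_helper34.GCE

open Pool.Agent.Lib_helper83.CS Pool.Agent.Lib_helper72.GC

/-- A real valued completely multiplicative function with values `0, 1, -1` and with all the sums
over intervals bounded by `q`. -/
structure Chi (q : ℕ) (χ : ℕ → ℝ) : Prop where
  one : χ 1 = 1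
  mul : ∀ a b : ℕ, χ (a * b) = χ a * χ b
  val : ∀ a : ℕ, χ a = 0 ∨ χ a = 1 ∨ χ a = -1
  sum : ∀ a b : ℕ, |∑ m ∈ Finset.Ico a b, χ m| ≤ q

/-- `r = 1 * χ`. -/
noncomputable def rr (χ : ℕ → ℝ) (m : ℕ) : ℝ := ∑ d ∈ m.divisors, χ d

/-- The summatory function of `r`. -/
noncomputable def RR (χ : ℕ → ℝ) (x : ℕ) : ℝ := ∑ m ∈ Finset.Icc 1 x, rr χ m

/-- The discriminant of `x^3 - n x^2 + (n-1) x - 1`. -/
def DD (n : ℤ) : ℤ := (n ^ 2 - 5 * n + 3) ^ 2 - 32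

/-- The quadratic character of the discriminant. -/
noncomputable def chD (n : ℤ) (m : ℕ) : ℝ := ((jacobiSym (m : ℤ) (DD n).toNat : ℤ) : ℝ)

/-- The primes `p ∈ (Y, 2Y]` with `χ(p) ≠ 1`. -/
noncomputable def PY (χ : ℕ → ℝ) (Y : ℕ) : Finset ℕ := by
  classical exact (Finset.Ioc Y (2 * Y)).filter (fun p => p.Prime ∧ χ p ≠ 1)

/-- The integral similarity class of a matrix. -/
def Cls (A : Matrix (Fin 3) (Fin 3) ℤ) : Set (Matrix (Fin 3) (Fin 3) ℤ) :=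
  {B | ∃ P Q : Matrix (Fin 3) (Fin 3) ℤ, P * Q = 1 ∧ Q * P = 1 ∧ B = P * A * Q}

open Classical in
/-- The labels `(m, c)` with `m ≤ 3 |n|`. -/
noncomputable def Labs (n : ℤ) : Finset (ℕ × ℕ) :=
  (Finset.Icc 1 (3 * n.natAbs) ×ˢ Finset.range (3 * n.natAbs)).filter
    (fun x => x.2 < x.1 ∧ (x.1 : ℤ) ∣ FF (-1) (-1) n x.2 1)

end Pool.Agent.Lib_helper34.GCE
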